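import Pool.Agent.Lib.LU3_h17.R15a
import Pool.Agent.Lib.D2_h7.StepNFG

/-!
# LU3: the step in case (*), `v(L₀)` not finitely generated, from the polygon block alone
-/

set_option autoImplicit false

namespace Pool.Agent.LU3.H17

open Pool.Agent.H15JM (RVal)
open Pool.Agent.LU1

universe u

/-- **The step in case (*), `v(L₀)` not finitely generated.** -/
theorem stepNFG_of_pol {k Ω : Type u} [Field k] [Field Ω] [Algebra k Ω] {v : RVal Ω} {r p : ℕ}
    (hp : p.Prime) (hchar : CharP k p) (hk : IsAlgClosed k)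
    (hPOL : ∀ Ω₀ : IntermediateField k Ω, RowPOL k Ω₀ (resv v Ω₀) r) :
    StepIf k Ω v r (CondNFG v) :=
  Pool.Agent.D2h7.stepNFG' hp hchar hk
    (fun _ _ hac hC _ _ hfr _ _ _ hm hA hc => row15a hp hac hC hfr hm hA hc.1) hPOL

end Pool.Agent.LU3.H17
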