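import Pool.Agent.Lib.LU3_h17.R15aPure

/-!
# LU3, row R15a: the choice of `ψ₀`, `ψ₁`, `S₁`, `H`
-/

set_option autoImplicit false

open Polynomial

namespace Pool.Agent.LU3.H17

open Pool.Agent.H15JM (RVal)
open Pool.Agent.LU1 Pool.Agent.LU1.RepAux
open Pool.Agent.D2h2 (Kap Dv dv_of_mono)
open Pool.Agent.D2h7 (Hp Out15a)
open Pool.Agent.D2 (al nr phi Fa Ev KG KapData SpL NatU)

universe u

section Setup

variable {k Ω : Type u} [Field k] [Field Ω] [Algebra k Ω] {v : RVal Ω} {r : ℕ}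
  {Ω₀ : IntermediateField k Ω} {z : Ω} {L₀ : IntermediateField k Ω₀}

theorem spL_tower (hac : IsAlgClosed Ω₀) : SpL L₀ Ω := ⟨fun P => by
  have h1 : (P.map (algebraMap L₀ Ω₀)).Splits := IsAlgClosed.splits _
  have h2 := h1.map (algebraMap Ω₀ Ω)
  rw [Polynomial.map_map] at h2
  exact h2⟩

theorem vpos_coe {x : Ω₀} : VPos (resv v Ω₀) x ↔ VPos v (x : Ω) := by
  unfold VPos
  rw [resv_apply]
  refine imp_congr ?_ Iff.rfl
  exact not_congr ⟨fun h => by rw [h]; rfl, fun h => Subtype.ext h⟩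

theorem sub_coe_ne (hC : Core k v r Ω₀ z) (x : Ω₀) : z - (x : Ω) ≠ 0 := by
  intro h
  rw [sub_eq_zero] at h
  exact hC.z_not (h ▸ x.2)

theorem natU_core (hC : Core k v r Ω₀ z) : NatU v := D2.natU_of_triv hC.c2.triv

theorem star_of (hC : Core k v r Ω₀ z)
    (hst : ∀ ψ ∈ L₀, ∃ g ∈ L₀, g ≠ 0 ∧ resv v Ω₀ g = v (z - ((ψ : Ω₀) : Ω))) :
    D2.Star L₀ v z := by
  refine D2.Star.of_residue (fun ψ => sub_coe_ne hC (ψ : Ω₀)) (fun x hx hv => ?_) fun ψ => ?_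
  · obtain ⟨c, -, hc⟩ := hC.c2.res x hx hv
    refine ⟨algebraMap k L₀ c, ?_⟩
    exact hc
  · obtain ⟨g, hg, hg0, hv⟩ := hst ψ ψ.2
    exact ⟨⟨g, hg⟩, fun h => hg0 (congrArg Subtype.val h), hv.symm⟩

/-- The lift of `A` to `L₀`. -/
theorem exists_lift {B : BF k (resv v Ω₀)} (hfr : FracIs B.R L₀) {A : Ω₀[X]} {m : ℕ}
    (hA : HA B A m) : ∃ A' : Polynomial L₀, A'.map (algebraMap L₀ Ω₀) = A := by
  rw [← mem_lifts, lifts_iff_coeff_lifts]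
  exact fun n => ⟨⟨A.coeff n, hfr.1 _ (hA.mem n)⟩, rfl⟩

theorem map_map' (P : Polynomial L₀) :
    P.map (algebraMap L₀ Ω) = (P.map (algebraMap L₀ Ω₀)).map (algebraMap Ω₀ Ω) := by
  rw [Polynomial.map_map]
  rfl

/-- The facts about `A` in case (*). -/
theorem star_facts (hac : IsAlgClosed Ω₀) (hC : Core k v r Ω₀ z) {B : BF k (resv v Ω₀)} {A : Ω₀[X]} {m : ℕ} (hm : 0 < m) (hA : HA B A m)
    (hst : Star v z L₀ A) {A' : Polynomial L₀} (hA' : A'.map (algebraMap L₀ Ω₀) = A) :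
    D2.Star L₀ v z ∧ nr v z A' = m ∧ phi v z A' = 0 ∧ A' ≠ 0 ∧
      ∃ b : ℝ, ∀ ψ : L₀, al v z ψ ≤ b := by
  have hs : D2.Star L₀ v z := star_of hC fun ψ hψ => (hst ψ hψ).1
  have hmap : A'.map (algebraMap L₀ Ω) = A.map (algebraMap Ω₀ Ω) := by rw [map_map', hA']
  have hspA : A.Splits := IsAlgClosed.splits A
  have hcoe : ∀ j, (A.map (algebraMap Ω₀ Ω)).coeff j = ((A.coeff j : Ω₀) : Ω) := fun j => by
    rw [coeff_map]; rfl
  have hO : D2.Ord0 v (A.map (algebraMap Ω₀ Ω)) m := by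
    refine ⟨fun j h0 => ?_, ?_, ?_, fun j hj => ?_⟩
    · rw [hcoe] at h0 ⊢
      exact B.nonneg _ (hA.mem j) fun h => h0 (by rw [h]; rfl)
    · rw [hcoe]
      exact fun h => hA.unit.2.1 (Subtype.ext h)
    · rw [hcoe]
      exact hA.unit.2.2
    · rw [hcoe]
      exact vpos_coe.mp (hA.low j hj)
  have hroots : ∀ ζ ∈ (A.map (algebraMap Ω₀ Ω)).roots, VPos v ζ →
      ∃ ζ₀ : Ω₀, ζ = (ζ₀ : Ω) ∧ Near v A ζ₀ := by
    intro ζ hζ hp
    rw [hspA.roots_map, Multiset.mem_map] at hζ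
    obtain ⟨ζ₀, h0, rfl⟩ := hζ
    exact ⟨ζ₀, rfl, (mem_roots (fun h => by rw [h] at h0; simp at h0)).mp h0, vpos_coe.mpr hp⟩
  have hspΩ : (A.map (algebraMap Ω₀ Ω)).Splits := hspA.map _
  obtain ⟨h1, h2, -⟩ := hO.star hs (fun _ => hC.z_pos) hspΩ fun ζ hζ hp _ ψ => by
    obtain ⟨ζ₀, rfl, hn⟩ := hroots ζ hζ hp
    exact (hst ψ ψ.2).2 ζ₀ hn
  have hA0 : A' ≠ 0 := by
    rintro rfl
    rw [Polynomial.map_zero] at hA'
    exact hA.unit.2.1 (by rw [← hA', coeff_zero])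
  have hnr : nr v z A' = m := by
    unfold nr
    rw [hmap]
    exact h1
  refine ⟨hs, hnr, ?_, hA0, ?_⟩
  · unfold phi
    rw [hmap]
    exact h2
  · obtain ⟨c1, -⟩ := hO.count hspΩ
    have hex : ∃ ζ, ζ ∈ (A.map (algebraMap Ω₀ Ω)).roots ∧ VPos v ζ := by
      classical
      have h3 : 0 < D2.cP v (A.map (algebraMap Ω₀ Ω)).roots := by rw [c1]; exact hm
      unfold D2.cP at h3
      obtain ⟨ζ, hζ⟩ := Multiset.card_pos_iff_exists_mem.mp h3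
      exact ⟨ζ, Multiset.mem_filter.mp hζ⟩
    obtain ⟨ζ, hζ, hp⟩ := hex
    obtain ⟨ζ₀, rfl, hn⟩ := hroots ζ hζ hp
    exact ⟨v (z - (ζ₀ : Ω)), fun ψ => ((hst ψ ψ.2).2 ζ₀ hn).le⟩

theorem coe_eval (P : Polynomial L₀) (ψ : L₀) (j : ℕ) :
    (((hasseDeriv j P).eval ψ : L₀) : Ω₀)
      = (hasseDeriv j (P.map (algebraMap L₀ Ω₀))).eval (ψ : Ω₀) :=
  D2.algebraMap_hasse P ψ j

theorem coe_eval0 (P : Polynomial L₀) (ψ : L₀) :
    ((P.eval ψ : L₀) : Ω₀) = (P.map (algebraMap L₀ Ω₀)).eval (ψ : Ω₀) := by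
  have := coe_eval P ψ 0
  rwa [hasseDeriv_zero', hasseDeriv_zero'] at this

theorem map_ne_zero_iff' {P : Polynomial L₀} : P.map (algebraMap L₀ Ω₀) ≠ 0 ↔ P ≠ 0 :=
  Polynomial.map_ne_zero_iff (algebraMap L₀ Ω₀).injective

/-- The Kaplansky data of a polynomial without near roots at a point beyond its roots. -/
theorem kap_of [SpL L₀ Ω] (hs : D2.Star L₀ v z) (hk : NatU v) {S : BF k (resv v Ω₀)}
    {P : Polynomial L₀} (hP : P ≠ 0) (h0 : nr v z P = 0) {ψ : L₀} (hψ : Fa v z P ψ)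
    (hmono : ∀ j, (hasseDeriv j P).eval ψ ≠ 0 → S.Mono (((hasseDeriv j P).eval ψ : L₀) : Ω₀)) :
    Kap S (P.map (algebraMap L₀ Ω₀)) (ψ : Ω₀) (al v z ψ) ∧
      resv v Ω₀ ((P.map (algebraMap L₀ Ω₀)).eval (ψ : Ω₀)) = phi v z P := by
  obtain ⟨h1, h2⟩ := D2.val_evalK hs hk hP h0 hψ
  have h3 : resv v Ω₀ ((P.map (algebraMap L₀ Ω₀)).eval (ψ : Ω₀)) = phi v z P := by
    rw [← coe_eval0]
    exact h2
  refine ⟨⟨fun j => ?_, ?_, fun j hj hne => ?_⟩, h3⟩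
  · rw [← coe_eval]
    by_cases h : (hasseDeriv j P).eval ψ = 0
    · left
      rw [h]
      rfl
    · exact Or.inr (hmono j h)
  · rw [← coe_eval0]
    exact fun h => h1 (Subtype.ext h)
  · rw [h3]
    rw [← coe_eval] at hne ⊢
    exact D2.gt_hasseK hs hP h0 hψ hj fun h => hne (by rw [h]; rfl)

end Setup

section Main

variable {k Ω : Type u} [Field k] [Field Ω] [Algebra k Ω] {v : RVal Ω} {r : ℕ}
  {Ω₀ : IntermediateField k Ω} {z : Ω} {L₀ : IntermediateField k Ω₀}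

/-- **Row R15a.** -/
theorem row15a {p : ℕ} (hp : p.Prime) [CharP k p] (hac : IsAlgClosed Ω₀)
    (hC : Core k v r Ω₀ z) {B : BF k (resv v Ω₀)} (hfr : FracIs B.R L₀) {A : Ω₀[X]} {m : ℕ}
    (hm : 0 < m) (hA : HA B A m) (hst : Star v z L₀ A) :
    Nonempty (Out15a z B L₀ A m p) := by
  classical
  have : SpL L₀ Ω := spL_tower hac
  have : CharP Ω p := charP_of_injective_algebraMap (algebraMap k Ω).injective p
  obtain ⟨A', hA'⟩ := exists_lift hfr hA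
  obtain ⟨hs, hnr, hphi, hA0, b, hb⟩ := star_facts hac hC hm hA hst hA'
  have hk : NatU v := natU_core hC
  obtain ⟨D⟩ := D2.exists_kapData hs hk hp hb hA0 (by rw [hnr]; exact hm)
  -- the supremum
  set σ : ℝ := ⨆ ψ : L₀, al v z ψ with hσdef
  have hbdd : BddAbove (Set.range fun ψ : L₀ => al v z ψ) :=
    ⟨b, by rintro _ ⟨ψ, rfl⟩; exact hb ψ⟩
  have hσlt : ∀ ψ : L₀, al v z ψ < σ := by
    intro ψ
    obtain ⟨ψ', h'⟩ := hs.nomax ψ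
    exact h'.trans_le (le_ciSup hbdd ψ')
  have hσex : ∀ a < σ, ∃ ψ : L₀, a < al v z ψ := fun a ha => exists_lt_of_lt_ciSup ha
  have hσle : ∀ c : ℝ, (∀ ψ : L₀, al v z ψ ≤ c) → σ ≤ c := fun c hc => ciSup_le hc
  -- the choice of `ψ₀`, `ψ₁`
  obtain ⟨ψ₀, hψ₀⟩ := D.ev.and (hs.ev_gt 0)
  have hev : ∀ ψ : L₀, al v z ψ₀ ≤ al v z ψ → _ := fun ψ hψ => (hψ₀ ψ hψ).1
  obtain ⟨ψ₁, h01⟩ := hs.nomax ψ₀
  have hal0 : al v z (0 : L₀) = v z := by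
    unfold al
    rw [map_zero, sub_zero]
  have hpos0 : 0 < al v z ψ₀ := by
    have h1 := (hψ₀ ψ₀ le_rfl).2
    rw [hal0] at h1
    exact hC.z_pos.trans h1
  -- the elements which become monomials
  obtain ⟨g₀, hg₀, hg₀0, hvg₀⟩ := (hst ψ₀ ψ₀.2).1
  obtain ⟨g₁, hg₁, hg₁0, hvg₁⟩ := (hst ψ₁ ψ₁.2).1
  set N : ℕ := D.G.natDegree + 1 with hN
  set T₀ : Finset L₀ := {ψ₁, ψ₁ - ψ₀, D.G.eval ψ₁, ⟨g₀, hg₀⟩, ⟨g₁, hg₁⟩} ∪
    ((Finset.range N ×ˢ Finset.range N).image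
      fun x => (hasseDeriv x.2 (hasseDeriv x.1 D.G)).eval ψ₀) ∪
    ((Finset.range D.n ×ˢ Finset.range N).image
      fun x => (hasseDeriv x.2 (D.f x.1)).eval ψ₀) with hT₀
  obtain ⟨S₁, hreach, hmono⟩ := ML p hp hC.c1 B L₀ hfr
    ((T₀.filter fun x => x ≠ 0).image fun x : L₀ => (x : Ω₀)) (fun f hf => by
      obtain ⟨x, hx, rfl⟩ := Finset.mem_image.mp hf
      exact ⟨x.2, fun h => (Finset.mem_filter.mp hx).2 (Subtype.ext h)⟩)
  have hM : ∀ x ∈ T₀, x ≠ 0 → S₁.Mono ((x : L₀) : Ω₀) := fun x hx h0 =>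
    hmono _ (Finset.mem_image.mpr ⟨x, Finset.mem_filter.mpr ⟨hx, h0⟩, rfl⟩)
  have hMG : ∀ i j, (hasseDeriv j (hasseDeriv i D.G)).eval ψ₀ ≠ 0 →
      S₁.Mono (((hasseDeriv j (hasseDeriv i D.G)).eval ψ₀ : L₀) : Ω₀) := by
    intro i j hne
    have hi : i < N := by
      by_contra h
      rw [hasseDeriv_eq_zero_of_lt_natDegree D.G i (by omega), map_zero, eval_zero] at hne
      exact hne rfl
    have hj : j < N := by
      by_contra h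
      have h1 := natDegree_hasseDeriv_le D.G i
      rw [hasseDeriv_eq_zero_of_lt_natDegree _ j (by omega), eval_zero] at hne
      exact hne rfl
    refine hM _ (Finset.mem_union_left _ (Finset.mem_union_right _ ?_)) hne
    exact Finset.mem_image.mpr ⟨(i, j), Finset.mem_product.mpr
      ⟨Finset.mem_range.mpr hi, Finset.mem_range.mpr hj⟩, rfl⟩
  have hMf : ∀ s j, (hasseDeriv j (D.f s)).eval ψ₀ ≠ 0 →
      S₁.Mono (((hasseDeriv j (D.f s)).eval ψ₀ : L₀) : Ω₀) := by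
    intro s j hne
    have hs' : s < D.n := by
      by_contra h
      rw [D.f_zero s (by omega), map_zero, eval_zero] at hne
      exact hne rfl
    have hj : j < N := by
      by_contra h
      have h1 := D.deg s
      rw [hasseDeriv_eq_zero_of_lt_natDegree _ j (by omega), eval_zero] at hne
      exact hne rfl
    refine hM _ (Finset.mem_union_right _ ?_) hne
    exact Finset.mem_image.mpr ⟨(s, j), Finset.mem_product.mpr
      ⟨Finset.mem_range.mpr hs', Finset.mem_range.mpr hj⟩, rfl⟩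
  have hMb : ∀ x ∈ ({ψ₁, ψ₁ - ψ₀, D.G.eval ψ₁, ⟨g₀, hg₀⟩, ⟨g₁, hg₁⟩} : Finset L₀), x ≠ 0 →
      S₁.Mono ((x : L₀) : Ω₀) := fun x hx h0 =>
    hM x (Finset.mem_union_left _ (Finset.mem_union_left _ hx)) h0
  -- the group elements
  have hα₀ : al v z ψ₀ ∈ S₁.Γ := by
    have h1 := (hMb ⟨g₀, hg₀⟩ (by simp) fun h => hg₀0 (congrArg Subtype.val h)).2.1
    rw [show al v z ψ₀ = resv v Ω₀ g₀ from hvg₀.symm]
    exact h1
  have hα₁ : al v z ψ₁ ∈ S₁.Γ := by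
    have h1 := (hMb ⟨g₁, hg₁⟩ (by simp) fun h => hg₁0 (congrArg Subtype.val h)).2.1
    rw [show al v z ψ₁ = resv v Ω₀ g₁ from hvg₁.symm]
    exact h1
  -- the difference
  have hdiff : ψ₁ - ψ₀ ≠ 0 ∧ resv v Ω₀ (((ψ₁ - ψ₀ : L₀) : Ω₀)) = al v z ψ₀ := by
    have h1 := v.add_of_lt (hs.ne ψ₀) (neg_ne_zero.mpr (hs.ne ψ₁))
      (by rw [v.map_neg _ (hs.ne ψ₁)]; exact h01)
    have h2 : (z - algebraMap L₀ Ω ψ₀) + -(z - algebraMap L₀ Ω ψ₁)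
        = algebraMap L₀ Ω (ψ₁ - ψ₀) := by
      rw [map_sub]
      ring
    rw [h2] at h1
    exact ⟨D2.ne_zero_of_map h1.1, h1.2⟩
  have hMd := hMb (ψ₁ - ψ₀) (by simp) hdiff.1
  have hDv : Dv S₁ (al v z ψ₀) ((ψ₁ : Ω₀) - (ψ₀ : Ω₀)) := by
    have h1 := dv_of_mono hMd
    rw [hdiff.2] at h1
    exact h1
  -- the values of `G`
  have hG0 := D.kg.monic.ne_zero
  have hGne : hasseDeriv (p ^ D.t) D.G ≠ 0 := by
    have := D.kg.hasse_ne hs hk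
    rwa [D.h_eq] at this
  have hφG : phi v z (hasseDeriv (p ^ D.t) D.G) = phi v z D.G := by
    have := D.kg.phi_hasse hs hk
    rwa [D.h_eq] at this
  have hkapG : ∀ i, 1 ≤ i → hasseDeriv i D.G ≠ 0 →
      Kap S₁ (hasseDeriv i (D.G.map (algebraMap L₀ Ω₀))) (ψ₀ : Ω₀) (al v z ψ₀) ∧
      resv v Ω₀ ((hasseDeriv i (D.G.map (algebraMap L₀ Ω₀))).eval (ψ₀ : Ω₀))
        = phi v z (hasseDeriv i D.G) := by
    intro i hi hne
    rw [hasse_map]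
    exact kap_of hs hk hne (D.kg.nr_hasse hi hne) ((hev ψ₀ le_rfl).2.1 i) (hMG i)
  have hkapf : ∀ s, D.f s ≠ 0 →
      Kap S₁ ((D.f s).map (algebraMap L₀ Ω₀)) (ψ₀ : Ω₀) (al v z ψ₀) ∧
      resv v Ω₀ (((D.f s).map (algebraMap L₀ Ω₀)).eval (ψ₀ : Ω₀)) = phi v z (D.f s) := by
    intro s hne
    have h1 := (hev ψ₀ le_rfl).2.2.1 s 0
    rw [hasseDeriv_zero'] at h1
    exact kap_of hs hk hne (D.kg.least _ hne (D.deg s)) h1 (hMf s)
  have hq0 : 0 < p ^ D.t := pow_pos hp.pos _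
  have hvq := (hkapG (p ^ D.t) hq0 hGne).2
  rw [hφG] at hvq
  -- the numbers
  have hmeq : m = D.s₀ * p ^ D.t := by
    have := D.nr_eq
    rwa [hnr, D.h_eq] at this
  have hnorm : phi v z (D.f D.s₀) + D.s₀ * phi v z D.G = 0 := by
    rw [← D.phi_eq]
    exact hphi
  have hne' : ∀ i, hasseDeriv i (D.G.map (algebraMap L₀ Ω₀)) ≠ 0 ↔ hasseDeriv i D.G ≠ 0 := by
    intro i
    rw [hasse_map]
    exact map_ne_zero_iff'
  have hlow : ∀ i, 1 ≤ i → i < p ^ D.t → hasseDeriv i D.G ≠ 0 →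
      phi v z D.G + (((p ^ D.t : ℕ) : ℝ) - i) * σ ≤ phi v z (hasseDeriv i D.G) := by
    intro i hi hiq hne
    have h1 : (0 : ℝ) < ((p ^ D.t : ℕ) : ℝ) - i := by
      have : (i : ℝ) < ((p ^ D.t : ℕ) : ℝ) := by exact_mod_cast hiq
      linarith
    have h2 : σ ≤ (phi v z (hasseDeriv i D.G) - phi v z D.G) / (((p ^ D.t : ℕ) : ℝ) - i) := by
      refine hσle _ fun ψ => ?_
      rw [le_div_iff₀ h1]
      have h3 := D.kg.phi_lt hs hk hi (by rw [D.h_eq]; exact hiq) hne ψ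
      rw [D.h_eq] at h3
      linarith
    rw [le_div_iff₀ h1] at h2
    linarith
  have hhigh : ∀ i, p ^ D.t < i → hasseDeriv i D.G ≠ 0 →
      phi v z D.G - ((i : ℝ) - ((p ^ D.t : ℕ) : ℝ)) * al v z ψ₀ ≤
        phi v z (hasseDeriv i D.G) := by
    intro i hiq hne
    have h0 := (hev ψ₀ le_rfl).2.1 0
    rw [hasseDeriv_zero'] at h0
    have h3 := D.kg.phi_gt hs hk (by rw [D.h_eq]; exact hiq) hne h0 ((hev ψ₀ le_rfl).2.1 i)
    rw [D.h_eq] at h3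
    linarith
  -- points beyond `ψ₁`
  have hbey : ∀ ψ : L₀, al v z ψ₁ ≤ al v z ψ → D.G.eval ψ ≠ 0 ∧
      resv v Ω₀ (((D.G.eval ψ : L₀) : Ω₀)) = phi v z D.G + ((p ^ D.t : ℕ) : ℝ) * al v z ψ := by
    intro ψ hψ
    have h0 := (hev ψ (h01.le.trans hψ)).2.1 0
    rw [hasseDeriv_zero'] at h0
    have h1 := D2.val_evalL hs hk hG0 h0
    rw [D.h_eq] at h1
    exact h1
  have hψL : ∀ S : BF k (resv v Ω₀), TReach S₁ S → ∀ θ ∈ S.R, ∃ ψ : L₀,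
      ((ψ : L₀) : Ω₀) = (ψ₁ : Ω₀) + S₁.χ (al v z ψ₁) * θ ∧ al v z ψ₁ ≤ al v z ψ := by
    intro S hS θ hθ
    have hfr₁ : FracIs S₁.R L₀ := hreach.ext.fracIs hfr
    have h1 : S₁.χ (al v z ψ₁) ∈ L₀ := mem_of_frac hfr₁ hα₁
    have h2 : θ ∈ L₀ := (hS.fracIs hfr₁).1 θ hθ
    refine ⟨ψ₁ + ⟨S₁.χ (al v z ψ₁), h1⟩ * ⟨θ, h2⟩, rfl, ?_⟩
    set y : Ω := ((S₁.χ (al v z ψ₁) : Ω₀) : Ω) * ((θ : Ω₀) : Ω) with hy
    have h3 : z - algebraMap L₀ Ω (ψ₁ + ⟨S₁.χ (al v z ψ₁), h1⟩ * ⟨θ, h2⟩)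
        = (z - algebraMap L₀ Ω ψ₁) - y := by
      rw [map_add, map_mul, hy]
      change z - (_ + ((S₁.χ (al v z ψ₁) : Ω₀) : Ω) * ((θ : Ω₀) : Ω)) = _
      ring
    have h4 : v.Ge (al v z ψ₁) (z - algebraMap L₀ Ω ψ₁) := fun _ => le_rfl
    have h5 : v.Ge (al v z ψ₁) y := by
      intro hne
      have hc : (S₁.χ (al v z ψ₁) : Ω₀) ≠ 0 := S₁.χ_ne _ hα₁
      have hθ0 : θ ≠ 0 := by
        rintro rfl
        exact hne (by rw [hy]; simp)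
      have h6 : v y = resv v Ω₀ (S₁.χ (al v z ψ₁) * θ) := rfl
      rw [h6, (resv v Ω₀).map_mul hc hθ0, S₁.χ_val _ hα₁]
      have h7 := S.nonneg θ hθ hθ0
      linarith
    have h8 := (h4.sub h5)
    rw [← h3] at h8
    exact h8 (hs.ne _)
  have hG1 := hbey ψ₁ le_rfl
  have hMG1 : S₁.Mono ((D.G.map (algebraMap L₀ Ω₀)).eval (ψ₁ : Ω₀)) := by
    rw [← coe_eval0]
    exact hMb _ (by simp) hG1.1
  have hψ₁mem : (ψ₁ : Ω₀) ∈ S₁.R := by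
    by_cases h0 : ψ₁ = 0
    · rw [h0]
      exact S₁.R.zero_mem
    · refine (hMb ψ₁ (by simp) h0).mem ?_
      have h1 : v.Ge 0 z := fun _ => hC.z_pos.le
      have h2 : v.Ge 0 (z - algebraMap L₀ Ω ψ₁) := fun _ => (hpos0.trans h01).le
      have h3 := h1.sub h2
      rw [sub_sub_cancel] at h3
      exact h3 (D2.map_ne_zero' h0)
  have hHval : ∀ S : BF k (resv v Ω₀), TReach S₁ S → ∀ θ ∈ S.R, ∀ ψ : L₀,
      ((ψ : L₀) : Ω₀) = (ψ₁ : Ω₀) + S₁.χ (al v z ψ₁) * θ → al v z ψ₁ ≤ al v z ψ →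
      resv v Ω₀ ((Hp S₁ (D.G.map (algebraMap L₀ Ω₀)) (p ^ D.t) (ψ₀ : Ω₀) (ψ₁ : Ω₀)
        (al v z ψ₁)).eval θ) = ((p ^ D.t : ℕ) : ℝ) * (al v z ψ - al v z ψ₁) := by
    intro S hS θ hθ ψ hψe hψ
    have h1 := hasse_Hp S₁ (D.G.map (algebraMap L₀ Ω₀)) (p ^ D.t) (ψ₀ : Ω₀) (ψ₁ : Ω₀)
      (al v z ψ₁) 0 θ
    rw [hasseDeriv_zero', hasseDeriv_zero', pow_zero, mul_one, ← hψe, ← coe_eval0] at h1
    obtain ⟨h2, h3⟩ := hbey ψ hψ
    have h4 : (((D.G.eval ψ : L₀)) : Ω₀) ≠ 0 := fun h => h2 (Subtype.ext h)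
    have hqα : ((p ^ D.t : ℕ) : ℝ) * al v z ψ₁ ∈ S₁.Γ := by
      rw [← nsmul_eq_mul]; exact S₁.Γ.nsmul_mem hα₁ _
    have h5 := (hkapG (p ^ D.t) hq0 hGne).1.ne
    have h6 := S₁.χ_ne _ hqα
    rw [h1, (resv v Ω₀).map_mul (inv_ne_zero (mul_ne_zero h5 h6)) h4,
      (resv v Ω₀).map_inv (mul_ne_zero h5 h6), (resv v Ω₀).map_mul h5 h6, hvq,
      S₁.χ_val _ hqα, h3]
    ring
  refine ⟨{
    S₁ := S₁
    reach := TReach.of_reach hreach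
    t := D.t
    t_pos := D.one_le
    s₀ := D.s₀
    n := D.n
    G := D.G.map (algebraMap L₀ Ω₀)
    f := fun s => (D.f s).map (algebraMap L₀ Ω₀)
    s_lt := D.lt
    f_ne := map_ne_zero_iff'.mpr D.ne
    sum := ?_
    m_eq := hmeq
    ψ₀ := (ψ₀ : Ω₀)
    ψ₁ := (ψ₁ : Ω₀)
    ψ₁_mem := hψ₁mem
    α₀ := al v z ψ₀
    α₁ := al v z ψ₁
    α₀_pos := hpos0
    lt01 := h01
    α₀_mem := hα₀
    α₁_mem := hα₁
    σ := σ
    kapG := fun i hi hne => (hkapG i hi ((hne' i).mp hne)).1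
    kapf := fun s _ hne => (hkapf s (map_ne_zero_iff'.mp hne)).1
    G_ne := (hne' _).mpr hGne
    low := ?_
    high := ?_
    diff := hDv
    phi_eq := ?_
    line := ?_
    hpol := ?_
    val := ?_ }⟩
  · rw [← hA']
    conv_lhs => rw [D.sum]
    rw [Polynomial.map_sum]
    refine Finset.sum_congr rfl fun s _ => ?_
    rw [Polynomial.map_mul, Polynomial.map_pow]
  · intro i hi hiq hne
    rw [hvq, (hkapG i hi ((hne' i).mp hne)).2]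
    exact hlow i hi hiq ((hne' i).mp hne)
  · intro i hiq hne
    rw [hvq, (hkapG i (hq0.trans hiq) ((hne' i).mp hne)).2]
    exact hhigh i hiq ((hne' i).mp hne)
  · rw [hvq, (hkapf D.s₀ D.ne).2]
    exact hnorm
  · intro a ha1 haσ s _ hss hne
    have hne1 := map_ne_zero_iff'.mp hne
    rw [hvq, (hkapf s hne1).2]
    obtain ⟨ψ', h'⟩ := hσex a haσ
    have e1 := (hev ψ₁ h01.le).2.2.2 s hss hne1
    have e2 := (hev ψ' (by linarith)).2.2.2 s hss hne1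
    rw [hphi, hnr, D.h_eq] at e1 e2
    have e3 : (m : ℝ) * a - (phi v z (D.f s) + s * (phi v z D.G + ((p ^ D.t : ℕ) : ℝ) * a)) =
        ((m : ℝ) - s * ((p ^ D.t : ℕ) : ℝ)) * a - (phi v z (D.f s) + s * phi v z D.G) := by
      ring
    have e4 : ((m : ℝ) - s * ((p ^ D.t : ℕ) : ℝ)) * a
        < phi v z (D.f s) + s * phi v z D.G := by
      rcases le_total 0 ((m : ℝ) - s * ((p ^ D.t : ℕ) : ℝ)) with h0 | h0
      · have := mul_le_mul_of_nonneg_left h'.le h0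
        linarith
      · have := mul_le_mul_of_nonpos_left ha1 h0
        linarith
    linarith
  · refine hpol_of (hreach.ext.fracIs hfr) hq0 h01 (hσlt ψ₁) hα₀ hα₁
      (fun i hi hne => (hkapG i hi ((hne' i).mp hne)).1) ((hne' _).mpr hGne) ?_ ?_ hDv hMG1 ?_ ?_
    · intro i hi hiq hne
      rw [hvq, (hkapG i hi ((hne' i).mp hne)).2]
      exact hlow i hi hiq ((hne' i).mp hne)
    · intro i hiq hne
      rw [hvq, (hkapG i (hq0.trans hiq) ((hne' i).mp hne)).2]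
      exact hhigh i hiq ((hne' i).mp hne)
    · rw [hvq, ← coe_eval0]
      exact hG1.2
    · intro S hS θ hθ
      obtain ⟨ψ, hψe, hψ⟩ := hψL S hS θ hθ
      obtain ⟨h2, h3⟩ := hbey ψ hψ
      refine ⟨al v z ψ, hσlt ψ, ⟨al v z ψ - al v z ψ₁, ?_, rfl⟩, ?_, ?_⟩
      · obtain ⟨g, hg, hg0, hvg⟩ := (hst ψ ψ.2).1
        exact (vgp (resv v Ω₀) L₀).sub_mem ⟨g, hg, hg0, hvg⟩ ⟨g₁, hg₁, hg₁0, hvg₁⟩
      · rw [← hψe, ← coe_eval0]
        exact fun h => h2 (Subtype.ext h)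
      · rw [← hψe, ← coe_eval0, hvq]
        exact h3
  · intro S hS θ hθ
    obtain ⟨ψ, hψe, hψ⟩ := hψL S hS θ hθ
    rw [hHval S hS θ hθ ψ hψe hψ, ← hψe]
    have hq' : ((p ^ D.t : ℕ) : ℝ) ≠ 0 := by exact_mod_cast hq0.ne'
    rw [mul_div_cancel_left₀ _ hq', add_sub_cancel]
    rfl

end Main

end Pool.Agent.LU3.H17
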