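import Pool.Agent.Lib.D2_h7.Out15a
import Pool.Agent.Lib.D2_h17.Kap4
import Pool.Agent.Lib.LU3.TReach
import Pool.Agent.Lib.LU1_h15.ML

/-!
# LU3, row R15a: preparations
-/

set_option autoImplicit false

open Polynomial

namespace Pool.Agent.LU3.H17

open Pool.Agent.H15JM (RVal)
open Pool.Agent.LU1 Pool.Agent.LU1.RepAux
open Pool.Agent.D2h2 (Kap Dv dv_of_mono rep_add_hi hi_sum eval_taylor_sum)
open Pool.Agent.D2h7 (Hp Out15a)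

universe u

/-! ## Polynomials -/

section Poly

variable {E : Type u} [Field E]

theorem hasse_map {K : Type u} [Field K] (φ : K →+* E) (P : Polynomial K) (i : ℕ) :
    hasseDeriv i (P.map φ) = (hasseDeriv i P).map φ := by
  ext n
  rw [hasseDeriv_coeff, coeff_map, coeff_map, hasseDeriv_coeff, map_mul, map_natCast]

theorem hasse_affine (P : Polynomial E) (a b θ : E) (i : ℕ) :
    (hasseDeriv i (P.comp (C a + C b * X))).eval θ = (hasseDeriv i P).eval (a + b * θ) * b ^ i := by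
  rw [← taylor_coeff, taylor_apply, comp_assoc]
  have h1 : (C a + C b * X : Polynomial E).comp (X + C θ) = C b * X + C (a + b * θ) := by
    simp only [add_comp, mul_comp, C_comp, X_comp, map_add, map_mul]
    ring
  rw [h1, D2.comp_coeff]

end Poly

section Frames

variable {k E : Type u} [Field k] [Field E] [Algebra k E] {w : RVal E}

/-- The derivatives of `H`. -/
theorem hasse_Hp (S : BF k w) (G : Polynomial E) (q : ℕ) (ψ₀ ψ₁ : E) (α₁ : ℝ) (i : ℕ) (θ : E) :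
    (hasseDeriv i (Hp S G q ψ₀ ψ₁ α₁)).eval θ =
      ((hasseDeriv q G).eval ψ₀ * S.χ ((q : ℝ) * α₁))⁻¹ *
        ((hasseDeriv i G).eval (ψ₁ + S.χ α₁ * θ) * S.χ α₁ ^ i) := by
  unfold Hp
  rw [← smul_eq_C_mul, map_smul, eval_smul, smul_eq_mul, hasse_affine]

/-- `P(ψ) - P(ψ₀)` has content greater than the value of `P(ψ₀)`. -/
theorem kap_sub {S : BF k w} {P : Polynomial E} {ψ0 : E} {α0 : ℝ} (hK : Kap S P ψ0 α0)
    (hα0 : α0 ∈ S.Γ) {ψ : E} (hψ : Dv S α0 (ψ - ψ0)) :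
    Hi S (w (P.eval ψ0)) (P.eval ψ - P.eval ψ0) := by
  have hΓ : w (P.eval ψ0) ∈ S.Γ := hK.mono0.2.1
  have h1 := eval_taylor_sum P ψ0 ψ (Nat.lt_succ_self _)
  rw [Finset.sum_range_succ', hasseDeriv_zero', pow_zero, mul_one] at h1
  rw [h1, add_sub_cancel_right]
  refine hi_sum hΓ _ _ fun n _ => ?_
  rcases hK.mono (n + 1) with h0 | h0
  · rw [h0, zero_mul]; exact Hi.zero S hΓ
  · have hnα : ((n + 1 : ℕ) : ℝ) * α0 ∈ S.Γ := by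
      rw [← nsmul_eq_mul]; exact S.Γ.nsmul_mem hα0 (n + 1)
    have h1 := (dv_of_mono h0).mul h0.2.1 hnα (hψ.pow hα0 (n + 1))
    exact h1.hi (S.Γ.add_mem h0.2.1 hnα) (hK.lt (n + 1) (by omega) h0.1)

theorem kap_ext {S S' : BF k w} (h : Ext S S') {P : Polynomial E} {ψ0 : E} {α0 : ℝ}
    (hK : Kap S P ψ0 α0) : Kap S' P ψ0 α0 :=
  ⟨fun j => (hK.mono j).imp id fun hj => h.mono hj, hK.ne, hK.lt⟩

/-- There are arbitrarily large elements in `Γ`. -/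
theorem exists_ge (S : BF k w) (c : ℝ) : ∃ δ ∈ S.Γ, c ≤ δ := by
  obtain ⟨ε, hε, hε0⟩ := exists_pos S
  obtain ⟨n, hn⟩ := exists_nat_gt (c / ε)
  refine ⟨n * ε, by rw [← nsmul_eq_mul]; exact S.Γ.nsmul_mem hε n, ?_⟩
  rw [div_lt_iff₀ hε0] at hn
  exact hn.le

theorem cge_zero (S : BF k w) (c : ℝ) : CGe S c (0 : E) := by
  obtain ⟨δ, hδ, hc⟩ := exists_ge S c
  exact ⟨δ, hδ, hc, 0, S.R.zero_mem, by rw [mul_zero]⟩

theorem cpos_zero (S : BF k w) : CPos S (0 : E) := by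
  obtain ⟨δ, hδ, hc⟩ := exists_pos S
  exact ⟨δ, hδ, hc, 0, S.R.zero_mem, by rw [mul_zero]⟩

theorem cpos_of_hi {S : BF k w} {f : E} (h : Hi S 0 f) : CPos S f := h

theorem dv_mono_mul {S : BF k w} {f g : E} {κ : ℝ} (hκ : κ ∈ S.Γ) (hf : Dv S κ f)
    (hg : S.Mono g) : Dv S (w g + κ) (g * f) :=
  (dv_of_mono hg).mul hg.2.1 hκ hf

theorem cge_mem {S : BF k w} {f : E} {c : ℝ} (hc : 0 ≤ c) (h : CGe S c f) : f ∈ S.R := by
  obtain ⟨δ, hδ, hcδ, a, ha, rfl⟩ := h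
  exact S.R.mul_mem (S.χ_mem δ hδ (hc.trans hcδ)) ha

theorem cpos_mem {S : BF k w} {f : E} (h : CPos S f) : f ∈ S.R := by
  obtain ⟨δ, hδ, hcδ, a, ha, rfl⟩ := h
  exact S.R.mul_mem (S.χ_mem δ hδ hcδ.le) ha

theorem mem_of_frac {S : BF k w} {L₀ : IntermediateField k E} (hS : FracIs S.R L₀) {γ : ℝ}
    (hγ : γ ∈ S.Γ) : S.χ γ ∈ L₀ := by
  rcases le_total 0 γ with h | h
  · exact hS.1 _ (S.χ_mem γ hγ h)
  · have h1 := hS.1 _ (S.χ_mem (-γ) (S.Γ.neg_mem hγ) (neg_nonneg.mpr h))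
    have h2 := L₀.inv_mem h1
    rwa [S.χ_neg hγ, inv_inv] at h2

/-- **HPol from the numbers.** -/
theorem hpol_of {L₀ : IntermediateField k E} {S₁ : BF k w} (hfr : FracIs S₁.R L₀)
    {G : Polynomial E} {q : ℕ} (hq : 0 < q) {ψ₀ ψ₁ : E} {α₀ α₁ σ : ℝ} (h01 : α₀ < α₁)
    (hσ : α₁ < σ) (hα₀ : α₀ ∈ S₁.Γ) (hα₁ : α₁ ∈ S₁.Γ)
    (kapG : ∀ i, 1 ≤ i → hasseDeriv i G ≠ 0 → Kap S₁ (hasseDeriv i G) ψ₀ α₀)
    (G_ne : hasseDeriv q G ≠ 0)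
    (low : ∀ i, 1 ≤ i → i < q → hasseDeriv i G ≠ 0 →
      w ((hasseDeriv q G).eval ψ₀) + ((q : ℝ) - i) * σ ≤ w ((hasseDeriv i G).eval ψ₀))
    (high : ∀ i, q < i → hasseDeriv i G ≠ 0 →
      w ((hasseDeriv q G).eval ψ₀) - ((i : ℝ) - q) * α₀ ≤ w ((hasseDeriv i G).eval ψ₀))
    (diff : Dv S₁ α₀ (ψ₁ - ψ₀)) (hG1 : S₁.Mono (G.eval ψ₁))
    (hG1v : w (G.eval ψ₁) = w ((hasseDeriv q G).eval ψ₀) + q * α₁)
    (hval : ∀ S : BF k w, TReach S₁ S → ∀ θ ∈ S.R, ∃ β : ℝ, β < σ ∧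
      (∃ δ ∈ vgp w L₀, β - α₁ = δ) ∧ G.eval (ψ₁ + S₁.χ α₁ * θ) ≠ 0 ∧
      w (G.eval (ψ₁ + S₁.χ α₁ * θ)) = w ((hasseDeriv q G).eval ψ₀) + q * β) :
    HPol k w L₀ S₁ (Hp S₁ G q ψ₀ ψ₁ α₁) q (σ - α₁) := by
  have hqα : (q : ℝ) * α₁ ∈ S₁.Γ := by rw [← nsmul_eq_mul]; exact S₁.Γ.nsmul_mem hα₁ q
  have hKq := kapG q hq G_ne
  set g := (hasseDeriv q G).eval ψ₀ with hg
  have hMg : S₁.Mono g := hKq.mono0
  have hMd : S₁.Mono (g * S₁.χ ((q : ℝ) * α₁))⁻¹ := (hMg.mul (BF.Mono.χ hqα)).inv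
  have hvd : w (g * S₁.χ ((q : ℝ) * α₁))⁻¹ = -(w g + q * α₁) := by
    rw [w.map_inv (mul_ne_zero hMg.1 (S₁.χ_ne _ hqα)), w.map_mul hMg.1 (S₁.χ_ne _ hqα),
      S₁.χ_val _ hqα]
  -- transport to a later frame
  have hψ : ∀ S : BF k w, TReach S₁ S → ∀ θ ∈ S.R, Dv S α₀ (ψ₁ + S₁.χ α₁ * θ - ψ₀) := by
    intro S hS θ hθ
    have hE := hS.ext
    have e1 : ψ₁ + S₁.χ α₁ * θ - ψ₀ = (ψ₁ - ψ₀) + S₁.χ α₁ * θ := by ring
    rw [e1]
    refine Dv.add ?_ ?_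
    · obtain ⟨b, hb, he⟩ := diff
      have h1 := dv_of_mono (hE.mono (BF.Mono.χ hα₀))
      rw [S₁.χ_val _ hα₀] at h1
      have h2 := h1.mul_mem (hE.le hb)
      rwa [← he] at h2
    · have h1 := dv_of_mono (hE.mono (BF.Mono.χ hα₁))
      rw [S₁.χ_val _ hα₁] at h1
      exact (h1.mul_mem hθ).mono (hE.Γ_le _ hα₁) (hE.Γ_le _ hα₀) h01.le
  -- the contents of the derivatives
  have hcont : ∀ S : BF k w, TReach S₁ S → ∀ θ ∈ S.R, ∀ i, 1 ≤ i → hasseDeriv i G ≠ 0 →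
      (w ((hasseDeriv i G).eval ψ₀) + i * α₁ - (w g + q * α₁)) ∈ S.Γ ∧
      Dv S (w ((hasseDeriv i G).eval ψ₀) + i * α₁ - (w g + q * α₁))
        ((hasseDeriv i (Hp S₁ G q ψ₀ ψ₁ α₁)).eval θ) := by
    intro S hS θ hθ i hi hne
    have hE := hS.ext
    have hK := kap_ext hE (kapG i hi hne)
    have h1 := Dv.of_rep (hK.rep (hE.Γ_le _ hα₀) (hψ S hS θ hθ))
    have h2 : S.Mono (S₁.χ α₁ ^ i) := (hE.mono (BF.Mono.χ hα₁)).pow i
    have h3 := hE.mono hMd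
    have h4 := dv_mono_mul hK.mono0.2.1 h1 (h3.mul h2)
    have h5 : w ((g * S₁.χ ((q : ℝ) * α₁))⁻¹ * S₁.χ α₁ ^ i) = i * α₁ - (w g + q * α₁) := by
      rw [w.map_mul h3.1 h2.1, hvd, w.map_pow (S₁.χ_ne _ hα₁), S₁.χ_val _ hα₁]
      ring
    rw [hasse_Hp]
    have h6 : (g * S₁.χ ((q : ℝ) * α₁))⁻¹ * ((hasseDeriv i G).eval (ψ₁ + S₁.χ α₁ * θ)
        * S₁.χ α₁ ^ i) = (g * S₁.χ ((q : ℝ) * α₁))⁻¹ * S₁.χ α₁ ^ i *
        (hasseDeriv i G).eval (ψ₁ + S₁.χ α₁ * θ) := by ring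
    rw [h6]
    have h7 : w ((hasseDeriv i G).eval ψ₀) + i * α₁ - (w g + q * α₁)
        = w ((g * S₁.χ ((q : ℝ) * α₁))⁻¹ * S₁.χ α₁ ^ i) + w ((hasseDeriv i G).eval ψ₀) := by
      rw [h5]
      ring
    rw [h7]
    exact ⟨S.Γ.add_mem (h3.mul h2).2.1 hK.mono0.2.1, h4⟩
  have hzero : ∀ θ i, hasseDeriv i G = 0 → (hasseDeriv i (Hp S₁ G q ψ₀ ψ₁ α₁)).eval θ = 0 := by
    intro θ i h0
    rw [hasse_Hp, h0, eval_zero, zero_mul, mul_zero]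
  have hlow : ∀ S : BF k w, TReach S₁ S → ∀ θ ∈ S.R, ∀ i, 0 < i → i < q →
      CGe S (((q : ℝ) - i) * (σ - α₁)) ((hasseDeriv i (Hp S₁ G q ψ₀ ψ₁ α₁)).eval θ) := by
    intro S hS θ hθ i hi hiq
    by_cases hne : hasseDeriv i G = 0
    · rw [hzero θ i hne]
      exact cge_zero S _
    · obtain ⟨h1, b, hb, h2⟩ := hcont S hS θ hθ i hi hne
      refine ⟨_, h1, ?_, b, hb, h2⟩
      have h3 := low i hi hiq hne
      nlinarith
  have hunit : ∀ S : BF k w, TReach S₁ S → ∀ θ ∈ S.R,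
      CPos S ((hasseDeriv q (Hp S₁ G q ψ₀ ψ₁ α₁)).eval θ - 1) := by
    intro S hS θ hθ
    have hE := hS.ext
    have hK := kap_ext hE hKq
    have h1 := kap_sub hK (hE.Γ_le _ hα₀) (hψ S hS θ hθ)
    rw [← hg] at h1
    have h2 : (hasseDeriv q (Hp S₁ G q ψ₀ ψ₁ α₁)).eval θ - 1
        = g⁻¹ * ((hasseDeriv q G).eval (ψ₁ + S₁.χ α₁ * θ) - g) := by
      rw [hasse_Hp, ← hg, S₁.χ_nsmul hα₁]
      have h3 := hMg.1
      have h4 := S₁.χ_ne _ hα₁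
      field_simp
    rw [h2]
    obtain ⟨γ, hγ, hγ1, a, ha, h3⟩ := h1
    rw [h3]
    have h4 := hE.mono hMg
    have h5 : S.Mono (g⁻¹ * S.χ γ) := h4.inv.mul (BF.Mono.χ hγ)
    have h6 : w (g⁻¹ * S.χ γ) = γ - w g := by
      rw [w.map_mul h4.inv.1 (S.χ_ne _ hγ), w.map_inv h4.1, S.χ_val _ hγ]
      ring
    obtain ⟨b, hb, h7⟩ := dv_of_mono h5
    refine ⟨_, h5.2.1, by rw [h6]; linarith, b * a, S.R.mul_mem hb ha, ?_⟩
    rw [← mul_assoc, ← mul_assoc, ← h7]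
  have hhigh : ∀ S : BF k w, TReach S₁ S → ∀ θ ∈ S.R, ∀ i, q < i →
      CPos S ((hasseDeriv i (Hp S₁ G q ψ₀ ψ₁ α₁)).eval θ) := by
    intro S hS θ hθ i hiq
    by_cases hne : hasseDeriv i G = 0
    · rw [hzero θ i hne]
      exact cpos_zero S
    · obtain ⟨h1, b, hb, h2⟩ := hcont S hS θ hθ i (hq.trans hiq) hne
      refine ⟨_, h1, ?_, b, hb, h2⟩
      have h3 := high i hiq hne
      have h4 : (0 : ℝ) < i - q := by
        have : (q : ℝ) < i := by exact_mod_cast hiq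
        linarith
      nlinarith [mul_pos h4 (sub_pos.mpr h01)]
  refine ⟨hfr, fun j => ?_, hlow, hunit, hhigh, fun S hS θ hθ => ?_⟩
  · have h0 : (Hp S₁ G q ψ₀ ψ₁ α₁).coeff j = (hasseDeriv j (Hp S₁ G q ψ₀ ψ₁ α₁)).eval 0 := by
      rw [← taylor_coeff, taylor_zero]
    have hr := TReach.refl S₁
    have hz := S₁.R.zero_mem
    rw [h0]
    rcases lt_trichotomy j q with hj | hj | hj
    · rcases Nat.eq_zero_or_pos j with hj0 | hj0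
      · subst hj0
        rw [hasse_Hp, mul_zero, add_zero, pow_zero, mul_one, hasseDeriv_zero']
        refine (hMd.mul hG1).mem ?_
        rw [w.map_mul hMd.1 hG1.1, hvd, hG1v]
        linarith
      · refine cge_mem ?_ (hlow S₁ hr 0 hz j hj0 hj)
        have h4 : (0 : ℝ) ≤ q - j := by
          have : (j : ℝ) < q := by exact_mod_cast hj
          linarith
        exact mul_nonneg h4 (by linarith)
    · subst hj
      have h1 := S₁.R.add_mem (cpos_mem (hunit S₁ hr 0 hz)) S₁.R.one_mem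
      rwa [sub_add_cancel] at h1
    · exact cpos_mem (hhigh S₁ hr 0 hz j hj)
  · obtain ⟨β, hβ, ⟨δ, hδ, hδe⟩, hne, hv⟩ := hval S hS θ hθ
    have h1 := hasse_Hp S₁ G q ψ₀ ψ₁ α₁ 0 θ
    rw [hasseDeriv_zero', hasseDeriv_zero', pow_zero, mul_one] at h1
    have hq' : (0 : ℝ) < q := by exact_mod_cast hq
    have h2 : w ((Hp S₁ G q ψ₀ ψ₁ α₁).eval θ) = q * (β - α₁) := by
      rw [h1, w.map_mul hMd.1 hne, hvd, hv]
      ring
    refine ⟨?_, ?_, δ, hδ, by rw [h2, hδe]⟩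
    · rw [h1]
      exact mul_ne_zero hMd.1 hne
    · rw [h2]
      exact mul_lt_mul_of_pos_left (by linarith) hq'

end Frames

end Pool.Agent.LU3.H17
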