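import Pool.Agent.Lib.LU3.Rows
import Pool.Agent.Lib.D2_h17.Kap4

/-!
# LU3, row R3: near and far roots
-/

set_option autoImplicit false

open Polynomial

namespace Pool.Agent.LU3.H17

open Pool.Agent.H15JM (RVal)
open Pool.Agent.LU1
open Pool.Agent.D2 (IntP PosP Ord0 cP fP far_ne)

universe u

variable {Ω : Type u} [Field Ω] {v : RVal Ω}

theorem far_prod (R : Multiset Ω) (hR : ∀ ζ ∈ R, ¬ VPos v ζ) :
    ∃ c : Ω, c ≠ 0 ∧ v c = (R.map fun ζ => v ζ).sum ∧ ∃ F : Polynomial Ω, IntP v F ∧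
      (R.map fun ζ => X - C ζ).prod = C c * (1 + X * F) := by
  classical
  induction R using Multiset.induction_on with
  | empty =>
    refine ⟨1, one_ne_zero, by simp [v.map_one], 0, fun j => ?_, by simp⟩
    rw [coeff_zero]
    exact RVal.Ge.zero
  | cons ζ R ih =>
    obtain ⟨c, hc, hvc, F, hF, hP⟩ := ih fun ζ' h' => hR ζ' (Multiset.mem_cons_of_mem h')
    obtain ⟨h0, h1⟩ := far_ne (hR ζ (Multiset.mem_cons_self ζ R))
    have h2 : -ζ ≠ 0 := neg_ne_zero.mpr h0
    have h3 : v.Ge 0 (-ζ)⁻¹ := fun _ => by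
      rw [v.map_inv h2, v.map_neg _ h0]
      linarith
    refine ⟨-ζ * c, mul_ne_zero h2 hc, ?_, F + C (-ζ)⁻¹ * (1 + X * F), ?_, ?_⟩
    · rw [v.map_mul h2 hc, v.map_neg _ h0, hvc, Multiset.map_cons, Multiset.sum_cons]
    · exact hF.add ((IntP.cst h3).mul (IntP.one.add (IntP.var.mul hF)))
    · have h5 : (C (-ζ) : Polynomial Ω) * C (-ζ)⁻¹ = 1 := by
        rw [← C_mul, mul_inv_cancel₀ h2, C_1]
      have h6 : (C ζ : Polynomial Ω) = -C (-ζ) := by rw [C_neg, neg_neg]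
      rw [Multiset.map_cons, Multiset.prod_cons, hP, C_mul, h6]
      linear_combination (-(X * C c * (1 + X * F))) * h5

/-- **Row R3.** -/
theorem row3 {k Ω : Type u} [Field k] [Field Ω] [Algebra k Ω] (v : RVal Ω) (r : ℕ) :
    Row3 k Ω v r := by
  classical
  intro hac _ A m hge hlt hne hval
  have hO : Ord0 v A m := ⟨hge, hne, hval, hlt⟩
  have hsp : A.Splits := IsAlgClosed.splits A
  have hl : A.leadingCoeff ≠ 0 := leadingCoeff_ne_zero.mpr hO.ne_zero
  obtain ⟨h1, h2⟩ := hO.count hsp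
  obtain ⟨c, hc, hvc, F, hF, hP⟩ := far_prod (v := v) (A.roots.filter fun ζ => ¬ VPos v ζ)
    fun ζ hζ => (Multiset.mem_filter.mp hζ).2
  have h3 : v (A.leadingCoeff * c) = 0 := by
    rw [v.map_mul hl hc, hvc]
    exact h2
  refine ⟨A.roots.filter fun ζ => VPos v ζ, C (A.leadingCoeff * c) * (1 + X * F), h1,
    fun ζ hζ => ?_, fun ζ hζ hp => ?_, ?_, fun j => ?_, ?_, ?_⟩
  · obtain ⟨h4, h5⟩ := Multiset.mem_filter.mp hζ
    exact ⟨(mem_roots hO.ne_zero).mp h4, h5⟩
  · exact Multiset.mem_filter.mpr ⟨(mem_roots hO.ne_zero).mpr hζ, hp⟩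
  · conv_lhs => rw [hsp.eq_prod_roots]
    have h4 : (A.roots.map (X - C ·)).prod = ((A.roots.filter fun ζ => VPos v ζ).map
        fun ζ => X - C ζ).prod * ((A.roots.filter fun ζ => ¬ VPos v ζ).map
        fun ζ => X - C ζ).prod := by
      rw [← Multiset.prod_add, ← Multiset.map_add, Multiset.filter_add_not]
    rw [h4, hP, C_mul]
    ring
  · have h4 : IntP v (C (A.leadingCoeff * c) * (1 + X * F)) :=
      (IntP.cst fun _ => h3.ge).mul (IntP.one.add (IntP.var.mul hF))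
    exact h4 j
  · rw [coeff_C_mul, coeff_add, coeff_one_zero, mul_coeff_zero, coeff_X_zero, zero_mul, add_zero,
      mul_one]
    exact mul_ne_zero hl hc
  · rw [coeff_C_mul, coeff_add, coeff_one_zero, mul_coeff_zero, coeff_X_zero, zero_mul, add_zero,
      mul_one]
    exact h3

end Pool.Agent.LU3.H17
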